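import Pool.Agent.Helper36.CV.StmtsG

set_option autoImplicit false

namespace Pool.Agent.Helper36.CV

open Filter Topology Pointwise

noncomputable section

theorem k5_XX (l x : ℝ) : ∀ n : ℕ, XX (l : ℂ) n (x : ℂ) = ((X l n x : ℝ) : ℂ) ∧
    XX (l : ℂ) (n + 1) (x : ℂ) = ((X l (n + 1) x : ℝ) : ℂ) ∧
    XX (l : ℂ) (n + 2) (x : ℂ) = ((X l (n + 2) x : ℝ) : ℂ) := by
  intro n
  induction n with
  | zero =>
    refine ⟨?_, ?_, ?_⟩
    · simp [XX, X]
    · simp [XX, X]
    · simp [XX, X]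
  | succ n ih =>
    obtain ⟨h0, h1, h2⟩ := ih
    refine ⟨h1, h2, ?_⟩
    show 2 * XX (l : ℂ) (n + 2) (x : ℂ) * XX (l : ℂ) (n + 1) (x : ℂ) - XX (l : ℂ) n (x : ℂ) = _
    rw [h0, h1, h2]
    have : X l (n + 1 + 2) x = 2 * X l (n + 2) x * X l (n + 1) x - X l n x := rfl
    rw [this]
    push_cast
    ring

theorem k5_om (L0 l : ℝ) (hL0 : 1 ≤ L0) (hl : L0 < l) : (l : ℂ) ∈ Om2 L0 := by
  have h0 : 0 < l := by linarith
  have h1 : ‖(l : ℂ)‖ = l := by
    rw [Complex.norm_real, Real.norm_eq_abs, abs_of_pos h0]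
  refine ⟨?_, ?_⟩
  · rw [h1]; exact hl
  · rw [h1, Complex.ofReal_re]; linarith

theorem k5_dom (L0 l z : ℝ) (hL0 : 1 ≤ L0) (hl : L0 < l) (hz : |z| ≤ 1) :
    ((l : ℂ), (z : ℂ)) ∈ Dom L0 := by
  refine ⟨k5_om L0 l hL0 hl, ?_⟩
  show ‖(z : ℂ)‖ < 2
  rw [Complex.norm_real, Real.norm_eq_abs]
  linarith

theorem k5_step (l : ℝ) (hl : 20 ≤ l) (x : ℝ) (hx : x ∈ Cs l) (k : ℕ) (s : ℝ) (hs : s = 1 ∨ s = -1)
    (h0 : |X l k x| ≤ 11 / 10) (h1 : |X l (k + 1) x - s * l / 2| ≤ 3) (h2 : |X l (k + 2) x| ≤ 1) :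
    (|X l (k + 4) x| ≤ 1 ∧ ((|X l (k + 2) x - 1 / 2| ≤ 1 / 4) ∨ (|X l (k + 2) x + 1 / 2| ≤ 1 / 4))) ∨
    (|X l (k + 5) x| ≤ 1 ∧ |X l (k + 2) x| ≤ 3 / l) := by
  have e3 : X l (k + 3) x = 2 * X l (k + 2) x * X l (k + 1) x - X l k x := rfl
  have e4 : X l (k + 4) x = 2 * X l (k + 3) x * X l (k + 2) x - X l (k + 1) x := rfl
  set u := X l k x with hu
  set P := X l (k + 1) x with hP
  set z := X l (k + 2) x with hz
  have hPa : l / 2 - 3 ≤ |P| := by
    rcases hs with rfl | rfl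
    · have := (abs_le.mp h1).1
      have h3 := le_abs_self P
      linarith
    · have := (abs_le.mp h1).2
      have h3 := neg_le_abs P
      linarith
  have hP7 : 7 ≤ |P| := by linarith
  by_cases h4 : |X l (k + 4) x| ≤ 1
  · left
    refine ⟨h4, ?_⟩
    have e4' : (4 * z ^ 2 - 1) * P = X l (k + 4) x + 2 * u * z := by
      rw [e4, e3]; ring
    have hb : |4 * z ^ 2 - 1| * |P| ≤ 32 / 10 := by
      rw [← abs_mul, e4']
      calc |X l (k + 4) x + 2 * u * z| ≤ |X l (k + 4) x| + |2 * u * z| := abs_add_le _ _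
        _ = |X l (k + 4) x| + 2 * (|u| * |z|) := by
            rw [abs_mul, abs_mul, abs_two]; ring
        _ ≤ 1 + 2 * (11 / 10 * 1) := by
            have : |u| * |z| ≤ 11 / 10 * 1 := mul_le_mul h0 h2 (abs_nonneg _) (by norm_num)
            linarith
        _ = 32 / 10 := by norm_num
    have hb2 : |4 * z ^ 2 - 1| ≤ 1 / 2 := by
      by_contra hcon
      push Not at hcon
      have : 1 / 2 * 7 ≤ |4 * z ^ 2 - 1| * |P| :=
        mul_le_mul hcon.le hP7 (by norm_num) (abs_nonneg _)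
      linarith
    have hb3 := abs_le.mp hb2
    have hz2 := abs_le.mp h2
    rcases le_or_gt 0 z with hz0 | hz0
    · left
      rw [abs_le]
      constructor
      · by_contra hcon
        push Not at hcon
        nlinarith [hb3.1]
      · by_contra hcon
        push Not at hcon
        nlinarith [hb3.2]
    · right
      rw [abs_le]
      constructor
      · by_contra hcon
        push Not at hcon
        nlinarith [hb3.2]
      · by_contra hcon
        push Not at hcon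
        nlinarith [hb3.1]
  · right
    have h3 : |X l (k + 3) x| ≤ 1 := by
      rcases hx (k + 3) with h | h
      · exact h
      · exact absurd h h4
    have h5 : |X l (k + 5) x| ≤ 1 := by
      rcases hx (k + 4) with h | h
      · exact absurd h h4
      · exact h
    refine ⟨h5, ?_⟩
    have e3' : 2 * (z * P) = X l (k + 3) x + u := by rw [e3]; ring
    have hb : 2 * (|z| * |P|) ≤ 21 / 10 := by
      have : 2 * (|z| * |P|) = |2 * (z * P)| := by rw [abs_mul, abs_mul, abs_two]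
      rw [this, e3']
      calc |X l (k + 3) x + u| ≤ |X l (k + 3) x| + |u| := abs_add_le _ _
        _ ≤ 21 / 10 := by linarith
    have hlp : 0 < l := by linarith
    rw [le_div_iff₀ hlp]
    have h6 : |z| * (l / 2 - 3) ≤ |z| * |P| := mul_le_mul_of_nonneg_left hPa (abs_nonneg _)
    have h7 : l * (7 / 20) ≤ l / 2 - 3 := by linarith
    have h8 : |z| * (l * (7 / 20)) ≤ |z| * (l / 2 - 3) := mul_le_mul_of_nonneg_left h7 (abs_nonneg _)
    nlinarith

theorem k5_ofR {l x a : ℝ} {n : ℕ} (h : XX (l : ℂ) n (x : ℂ) = (a : ℂ)) : X l n x = a := by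
  rw [(k5_XX l x n).1] at h
  exact_mod_cast h

theorem st_K5 : ST_K5 := by
  intro c hc
  refine ⟨max 20 c, le_trans (by norm_num) (le_max_left _ _), ?_⟩
  intro L0 hL0 T l hl x hx
  have hL20 : 20 ≤ L0 := le_trans (le_max_left _ _) hL0
  have hLc : c ≤ L0 := le_trans (le_max_right _ _) hL0
  have hl20 : 20 ≤ l := by linarith
  have hlc : c ≤ l := by linarith
  have hL1 : 1 ≤ L0 := by linarith
  have hlp : 0 < l := by linarith
  have hnl : ‖(l : ℂ)‖ = l := by rw [Complex.norm_real, Real.norm_eq_abs, abs_of_pos hlp]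
  refine ⟨?_, ?_⟩
  · -- roots
    by_cases h2 : |X l 2 x| ≤ 1
    · have hX2 : X l 2 x = (x - l) / 2 := rfl
      have hX1 : X l 1 x = x / 2 := rfl
      have hX0 : X l 0 x = 1 := rfl
      have h0 : |X l 0 x| ≤ 11 / 10 := by rw [hX0, abs_one]; norm_num
      have h1 : |X l (0 + 1) x - 1 * l / 2| ≤ 3 := by
        have : X l (0 + 1) x - 1 * l / 2 = X l 2 x := by rw [hX2]; show X l 1 x - _ = _; rw [hX1]; ring
        rw [this]; linarith
      have hxe : (x : ℂ) = (l : ℂ) + 2 * ((X l 2 x : ℝ) : ℂ) := by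
        rw [hX2]; push_cast; ring
      rcases k5_step l hl20 x hx 0 1 (Or.inl rfl) h0 h1 h2 with ⟨h4, hr⟩ | ⟨h5, hr⟩
      · rcases hr with hr | hr
        · refine ⟨3, X l 4 x, h4, ?_⟩
          have hu := T.r3.un (l : ℂ) ((X l 4 x : ℝ) : ℂ) ((X l 2 x : ℝ) : ℂ)
            (k5_dom L0 l _ hL1 hl h4) (by
              have : ((X l 2 x : ℝ) : ℂ) - ((1 : ℝ) : ℂ) / 2 = ((X l 2 x - 1 / 2 : ℝ) : ℂ) := by
                push_cast; ring
              rw [this, Complex.norm_real, Real.norm_eq_abs]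
              exact hr) (by
              show XX (l : ℂ) (0 + 4) ((l : ℂ) + 2 * ((X l 2 x : ℝ) : ℂ)) = _
              rw [← hxe]
              exact (k5_XX l x 4).1)
          rw [T.r3E]
          show (x : ℂ) = (l : ℂ) + 2 * T.ζ3 l _
          rw [← hu]
          exact hxe
        · refine ⟨1, X l 4 x, h4, ?_⟩
          have hu := T.r1.un (l : ℂ) ((X l 4 x : ℝ) : ℂ) ((X l 2 x : ℝ) : ℂ)
            (k5_dom L0 l _ hL1 hl h4) (by
              have : ((X l 2 x : ℝ) : ℂ) - ((-1 : ℝ) : ℂ) / 2 = ((X l 2 x + 1 / 2 : ℝ) : ℂ) := by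
                push_cast; ring
              rw [this, Complex.norm_real, Real.norm_eq_abs]
              exact hr) (by
              show XX (l : ℂ) (0 + 4) ((l : ℂ) + 2 * ((X l 2 x : ℝ) : ℂ)) = _
              rw [← hxe]
              exact (k5_XX l x 4).1)
          rw [T.r1E]
          show (x : ℂ) = (l : ℂ) + 2 * T.ζ1 l _
          rw [← hu]
          exact hxe
      · refine ⟨2, X l 5 x, h5, ?_⟩
        have hu := T.r2.un (l : ℂ) ((X l 5 x : ℝ) : ℂ) ((X l 2 x : ℝ) : ℂ)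
          (k5_dom L0 l _ hL1 hl h5) (by
            rw [Complex.norm_real, Real.norm_eq_abs, hnl]
            exact hr) (by
            show XX (l : ℂ) (0 + 5) ((l : ℂ) + 2 * ((X l 2 x : ℝ) : ℂ)) = _
            rw [← hxe]
            exact (k5_XX l x 5).1)
        rw [T.r2E]
        show (x : ℂ) = (l : ℂ) + 2 * T.ζ2 l _
        rw [← hu]
        exact hxe
    · have h1 : |X l 1 x| ≤ 1 := by
        rcases hx 1 with h | h
        · exact h
        · exact absurd h h2
      have h3 : |X l 3 x| ≤ 1 := by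
        rcases hx 2 with h | h
        · exact absurd h h2
        · exact h
      refine ⟨0, X l 3 x, h3, ?_⟩
      have hX3 : X l 3 x = 2 * ((x - l) / 2) * (x / 2) - 1 := rfl
      have hX1 : X l 1 x = x / 2 := rfl
      obtain ⟨hr1, hr2⟩ := T.r0 (l : ℂ) ((X l 3 x : ℝ) : ℂ) (k5_dom L0 l _ hL1 hl h3)
      set E := T.EE (0, []) (l : ℂ) ((X l 3 x : ℝ) : ℂ) with hE
      have hxq : (x : ℂ) * ((x : ℂ) - (l : ℂ)) = 2 * (((X l 3 x : ℝ) : ℂ) + 1) := by
        rw [hX3]; push_cast; ring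
      have hprod : ((x : ℂ) - E) * ((x : ℂ) + E - (l : ℂ)) = 0 := by
        linear_combination hxq - hr1
      rcases mul_eq_zero.mp hprod with h | h
      · exact sub_eq_zero.mp h
      · exfalso
        have hEn : ‖E‖ ≤ 2 := by
          have ha : ‖2 * (((X l 3 x : ℝ) : ℂ) + 1) / (l : ℂ)‖ ≤ 4 / l := by
            rw [norm_div, hnl, norm_mul]
            have hb : ‖((X l 3 x : ℝ) : ℂ) + 1‖ ≤ 2 := by
              calc ‖((X l 3 x : ℝ) : ℂ) + 1‖ ≤ ‖((X l 3 x : ℝ) : ℂ)‖ + ‖(1 : ℂ)‖ := norm_add_le _ _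
                _ ≤ 1 + 1 := by
                  rw [Complex.norm_real, Real.norm_eq_abs, norm_one]; linarith
                _ = 2 := by norm_num
            have hc2 : ‖(2 : ℂ)‖ = 2 := by simp
            rw [hc2]
            apply div_le_div_of_nonneg_right _ hlp.le
            linarith
          have hb : c / ‖(l : ℂ)‖ ^ 2 ≤ 1 := by
            rw [hnl, div_le_one (by positivity)]
            nlinarith
          have hd : 4 / l ≤ 1 := by
            rw [div_le_one hlp]; linarith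
          calc ‖E‖ = ‖(E + 2 * (((X l 3 x : ℝ) : ℂ) + 1) / (l : ℂ))
                - 2 * (((X l 3 x : ℝ) : ℂ) + 1) / (l : ℂ)‖ := by congr 1; ring
            _ ≤ ‖E + 2 * (((X l 3 x : ℝ) : ℂ) + 1) / (l : ℂ)‖
                + ‖2 * (((X l 3 x : ℝ) : ℂ) + 1) / (l : ℂ)‖ := norm_sub_le _ _
            _ ≤ 1 + 1 := by linarith
            _ = 2 := by norm_num
        have hxn : ‖(x : ℂ)‖ ≤ 2 := by
          rw [Complex.norm_real, Real.norm_eq_abs]
          rw [hX1, abs_div, abs_two] at h1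
          linarith
        have hle : (l : ℂ) = (x : ℂ) + E := by linear_combination -h
        have : l ≤ 4 := by
          calc l = ‖(l : ℂ)‖ := hnl.symm
            _ = ‖(x : ℂ) + E‖ := by rw [hle]
            _ ≤ ‖(x : ℂ)‖ + ‖E‖ := norm_add_le _ _
            _ ≤ 4 := by linarith
        linarith
  · intro w z hz hxe
    have hd := k5_dom L0 l z hL1 hl hz
    have hS := T.sta w
    have ht0 := hS.t0 (l : ℂ) (z : ℂ) hd
    have ht1 := hS.t1 (l : ℂ) (z : ℂ) hd
    have ht2 := hS.t2 (l : ℂ) (z : ℂ) hd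
    rw [← hxe] at ht0 ht1 ht2
    have hz2 : X l (T.kk w + 2) x = z := k5_ofR ht2
    have hu : |X l (T.kk w) x| ≤ 11 / 10 := by
      have := hS.ub (l : ℂ) (z : ℂ) hd
      rw [← ht0, (k5_XX l x _).1, Complex.norm_real, Real.norm_eq_abs] at this
      exact this
    have hP : |X l (T.kk w + 1) x - T.ss w * l / 2| ≤ 3 := by
      rw [(k5_XX l x _).1] at ht1
      have he : ((X l (T.kk w + 1) x : ℝ) : ℂ) - (T.ss w : ℂ) * (l : ℂ) / 2
          = ((X l (T.kk w + 1) x - T.ss w * l / 2 : ℝ) : ℂ) := by push_cast; ring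
      rw [he, Complex.norm_real, Real.norm_eq_abs] at ht1
      exact ht1
    have hz2a : |X l (T.kk w + 2) x| ≤ 1 := by rw [hz2]; exact hz
    rcases k5_step l hl20 x hx (T.kk w) (T.ss w) hS.ss hu hP hz2a with ⟨h4, hr⟩ | ⟨h5, hr⟩
    · have hrr : ∃ r : ℝ, (r = 1 ∨ r = -1) ∧ ‖(z : ℂ) - (r : ℂ) / 2‖ ≤ 1 / 4 := by
        rw [hz2] at hr
        rcases hr with hr | hr
        · refine ⟨1, Or.inl rfl, ?_⟩
          have : (z : ℂ) - ((1 : ℝ) : ℂ) / 2 = ((z - 1 / 2 : ℝ) : ℂ) := by push_cast; ring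
          rw [this, Complex.norm_real, Real.norm_eq_abs]; exact hr
        · refine ⟨-1, Or.inr rfl, ?_⟩
          have : (z : ℂ) - ((-1 : ℝ) : ℂ) / 2 = ((z + 1 / 2 : ℝ) : ℂ) := by push_cast; ring
          rw [this, Complex.norm_real, Real.norm_eq_abs]; exact hr
      obtain ⟨r, hr1, hrn⟩ := hrr
      have hro : r = T.oo w ∨ r = -T.oo w := by
        rcases hr1 with rfl | rfl <;> rcases hS.oo with ho | ho <;> rw [ho] <;> norm_num
      have hXX : XX (l : ℂ) (T.kk w + 4) (T.EE w l z) = ((X l (T.kk w + 4) x : ℝ) : ℂ) := by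
        rw [← hxe]; exact (k5_XX l x _).1
      rcases hro with hro | hro
      · refine ⟨2, X l (T.kk w + 4) x, h4, ?_⟩
        refine (T.ch2 w).un (l : ℂ) _ (z : ℂ) (k5_dom L0 l _ hL1 hl h4) ?_ hXX
        rw [hro] at hrn
        exact hrn
      · refine ⟨0, X l (T.kk w + 4) x, h4, ?_⟩
        refine (T.ch0 w).un (l : ℂ) _ (z : ℂ) (k5_dom L0 l _ hL1 hl h4) ?_ hXX
        rw [hro] at hrn
        exact hrn
    · refine ⟨1, X l (T.kk w + 5) x, h5, ?_⟩
      refine (T.ch1 w).un (l : ℂ) _ (z : ℂ) (k5_dom L0 l _ hL1 hl h5) ?_ ?_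
      · rw [hz2] at hr
        rw [Complex.norm_real, Real.norm_eq_abs, hnl]
        exact hr
      · rw [← hxe]; exact (k5_XX l x _).1

end

end Pool.Agent.Helper36.CV
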