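import Pool.Agent.Helper36.CV.StmtsW

/-!
# T10: monotonicity of the lifts by counting roots
-/

set_option autoImplicit false

namespace Pool.Agent.Helper36.CV

open Set

/-- the half traces as polynomials -/
noncomputable def t10_P (l : ℝ) : ℕ → Polynomial ℝ
  | 0 => 1
  | 1 => Polynomial.C (1 / 2) * Polynomial.X
  | 2 => Polynomial.C (1 / 2) * (Polynomial.X - Polynomial.C l)
  | (n + 3) => Polynomial.C 2 * (t10_P l (n + 2) * t10_P l (n + 1)) - t10_P l n

theorem t10_eval (l E : ℝ) : ∀ n, (t10_P l n).eval E = X l n E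
  | 0 => by simp [t10_P, X]
  | 1 => by
    simp only [t10_P, X, Polynomial.eval_mul, Polynomial.eval_C, Polynomial.eval_X]
    ring
  | 2 => by
    simp only [t10_P, X, Polynomial.eval_mul, Polynomial.eval_C, Polynomial.eval_X,
      Polynomial.eval_sub]
    ring
  | (n + 3) => by
    simp only [t10_P, X, Polynomial.eval_mul, Polynomial.eval_C, Polynomial.eval_sub,
      t10_eval l E (n + 2), t10_eval l E (n + 1), t10_eval l E n]
    ring

theorem t10_deg (l : ℝ) : ∀ n, (t10_P l n).natDegree ≤ Nat.fib n ∧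
    (1 ≤ n → (t10_P l n).coeff (Nat.fib n) = 1 / 2)
  | 0 => by simp [t10_P]
  | 1 => by
    constructor
    · exact (Polynomial.natDegree_C_mul_X (1 / 2 : ℝ) (by norm_num)).le
    · intro _
      simp [t10_P]
  | 2 => by
    constructor
    · show (Polynomial.C (1 / 2) * (Polynomial.X - Polynomial.C l)).natDegree ≤ 1
      refine (Polynomial.natDegree_C_mul_le _ _).trans ?_
      exact Polynomial.natDegree_X_sub_C_le l
    · intro _
      show (Polynomial.C (1 / 2) * (Polynomial.X - Polynomial.C l)).coeff 1 = 1 / 2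
      rw [Polynomial.coeff_C_mul, Polynomial.coeff_sub, Polynomial.coeff_X_one,
        Polynomial.coeff_C_of_ne_zero one_ne_zero]
      ring
  | (n + 3) => by
    obtain ⟨h2, h2'⟩ := t10_deg l (n + 2)
    obtain ⟨h1, h1'⟩ := t10_deg l (n + 1)
    obtain ⟨h0, -⟩ := t10_deg l n
    have hf3 : Nat.fib (n + 3) = Nat.fib (n + 2) + Nat.fib (n + 1) := by
      rw [Nat.fib_add_two (n := n + 1), add_comm]
    have hf2 : Nat.fib (n + 2) = Nat.fib n + Nat.fib (n + 1) := Nat.fib_add_two
    have hp : 0 < Nat.fib (n + 1) := Nat.fib_pos.2 (by omega)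
    have hlt : Nat.fib n < Nat.fib (n + 3) := by omega
    have hmul : (Polynomial.C 2 * (t10_P l (n + 2) * t10_P l (n + 1))).natDegree ≤
        Nat.fib (n + 3) := by
      refine (Polynomial.natDegree_C_mul_le _ _).trans (Polynomial.natDegree_mul_le.trans ?_)
      omega
    constructor
    · refine (Polynomial.natDegree_sub_le _ _).trans (max_le hmul (by omega))
    · intro _
      show (Polynomial.C 2 * (t10_P l (n + 2) * t10_P l (n + 1)) - t10_P l n).coeff
        (Nat.fib (n + 3)) = 1 / 2
      rw [Polynomial.coeff_sub, Polynomial.coeff_C_mul,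
        Polynomial.coeff_eq_zero_of_natDegree_lt (lt_of_le_of_lt h0 hlt), hf3,
        Polynomial.coeff_mul_add_eq_of_natDegree_le h2 h1, h2' (by omega), h1' (by omega)]
      norm_num

theorem t10_card (l c : ℝ) {n : ℕ} (hn : 1 ≤ n) (S : Finset ℝ) (hS : ∀ E ∈ S, X l n E = c) :
    S.card ≤ Nat.fib n := by
  obtain ⟨h1, h2⟩ := t10_deg l n
  have hpos : 0 < Nat.fib n := Nat.fib_pos.2 hn
  set p := t10_P l n - Polynomial.C c with hp
  have hp0 : p ≠ 0 := by
    intro h
    have h3 : p.coeff (Nat.fib n) = 1 / 2 := by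
      rw [hp, Polynomial.coeff_sub, h2 hn, Polynomial.coeff_C_of_ne_zero (by omega), sub_zero]
    rw [h, Polynomial.coeff_zero] at h3
    norm_num at h3
  have hdeg : p.natDegree ≤ Nat.fib n := by
    refine (Polynomial.natDegree_sub_le _ _).trans (max_le h1 ?_)
    simp
  refine (Polynomial.card_le_degree_of_subset_roots (p := p) ?_).trans hdeg
  intro E hE
  rw [Polynomial.mem_roots hp0, Polynomial.IsRoot.def, hp, Polynomial.eval_sub, t10_eval,
    Polynomial.eval_C, hS E hE, sub_self]

/-- the solution of `cos θ = c` in `(kπ, (k+1)π)` -/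
theorem t10_theta {c : ℝ} (hc1 : -1 < c) (hc2 : c < 1) (k : ℕ) :
    ∃ θ : ℝ, Real.cos θ = c ∧ Real.pi * k < θ ∧ θ < Real.pi * (k + 1) := by
  have ha1 : 0 < Real.arccos c := Real.arccos_pos.2 hc2
  have ha2 : Real.arccos c < Real.pi := by
    rcases lt_or_eq_of_le (Real.arccos_le_pi c) with h | h
    · exact h
    · rw [Real.arccos_eq_pi] at h
      linarith
  have hcos : Real.cos (Real.arccos c) = c := Real.cos_arccos hc1.le hc2.le
  rcases Nat.even_or_odd k with ⟨j, hj⟩ | ⟨j, hj⟩
  · refine ⟨Real.arccos c + j * (2 * Real.pi), ?_, ?_, ?_⟩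
    · rw [Real.cos_add_nat_mul_two_pi, hcos]
    · rw [hj]
      push_cast
      nlinarith
    · rw [hj]
      push_cast
      nlinarith
  · refine ⟨((j + 1 : ℕ) : ℝ) * (2 * Real.pi) - Real.arccos c, ?_, ?_, ?_⟩
    · rw [Real.cos_nat_mul_two_pi_sub, hcos]
    · rw [hj]
      push_cast
      nlinarith
    · rw [hj]
      push_cast
      nlinarith

theorem t10_sin {v : ℝ} {k : ℤ} (h1 : Real.pi * k < v) (h2 : v < Real.pi * (k + 1)) :
    Real.sin v ≠ 0 := by
  intro h
  obtain ⟨n, hn⟩ := Real.sin_eq_zero_iff.1 h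
  rw [← hn] at h1 h2
  have hpi := Real.pi_pos
  have h3 : (k : ℝ) < n := by nlinarith
  have h4 : (n : ℝ) < k + 1 := by nlinarith
  have h5 : k < n := by exact_mod_cast h3
  have h6 : n < k + 1 := by exact_mod_cast h4
  omega

theorem t10_main (hT6 : ST_T6) (hT9 : ST_T9) {l : ℝ} (hl : 0 < |l|) (hl' : |l| ≤ 1 / 100)
    {n : ℕ} (hn : 1 ≤ n) :
    (∀ E, Real.sin (Th l n E) ≠ 0 → 0 < Th l n E ∧ Th l n E < Real.pi * (Nat.fib n : ℝ)) ∧
    (∀ E E', Real.sin (Th l n E) ≠ 0 → Th l n E = Th l n E' → E = E') := by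
  obtain ⟨hcont, -, h6⟩ := hT6 l hl hl' n
  have h9 := hT9 l hl hl' n
  have hR0 : Th l n (2 + |l|) = 0 := (h9 (2 + |l|)).1 le_rfl
  have hR1 : Th l n (-(2 + |l|)) = Real.pi * (Nat.fib n : ℝ) := (h9 (-(2 + |l|))).2.1 le_rfl
  have hpi := Real.pi_pos
  have key : ∀ E, Real.sin (Th l n E) ≠ 0 → ∃ e : ℕ → ℝ, ∃ θ : ℕ → ℝ,
      (∀ k < Nat.fib n, Th l n (e k) = θ k ∧ Real.pi * k < θ k ∧ θ k < Real.pi * (k + 1)) ∧
      ∀ E', Real.cos (Th l n E') = Real.cos (Th l n E) → ∃ k < Nat.fib n, E' = e k := by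
    intro E hE
    set c := Real.cos (Th l n E) with hc
    have hsq : c ^ 2 < 1 := by
      have h1 := Real.sin_sq_add_cos_sq (Th l n E)
      have h2 : 0 < Real.sin (Th l n E) ^ 2 := by positivity
      rw [hc]
      linarith
    have hc1 : -1 < c := by nlinarith
    have hc2 : c < 1 := by nlinarith
    choose θ hθ1 hθ2 hθ3 using fun k : ℕ => t10_theta hc1 hc2 k
    have hex : ∀ k : ℕ, ∃ x : ℝ, k < Nat.fib n → Th l n x = θ k := by
      intro k
      by_cases hk : k < Nat.fib n
      · have hk' : (k : ℝ) + 1 ≤ Nat.fib n := by exact_mod_cast hk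
        have hmem : θ k ∈ Icc (Th l n (2 + |l|)) (Th l n (-(2 + |l|))) := by
          rw [hR0, hR1]
          constructor
          · have := hθ2 k
            have h0 : 0 ≤ Real.pi * (k : ℝ) := by positivity
            linarith
          · have := hθ3 k
            nlinarith
        obtain ⟨x, -, hx⟩ := intermediate_value_Icc' (by linarith [abs_nonneg l])
          hcont.continuousOn hmem
        exact ⟨x, fun _ => hx⟩
      · exact ⟨0, fun h => absurd h hk⟩
    choose e he using hex
    refine ⟨e, θ, fun k hk => ⟨he k hk, hθ2 k, hθ3 k⟩, ?_⟩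
    have hXc : ∀ x, Real.cos (Th l n x) = c → X l n x = c := by
      intro x hx
      have h1 := (h6 x).2.2
      rw [hx] at h1
      unfold clamp at h1
      rcases le_total (min 1 (X l n x)) (-1) with h2 | h2
      · rw [max_eq_left h2] at h1
        linarith
      · rw [max_eq_right h2] at h1
        rcases le_total 1 (X l n x) with h3 | h3
        · rw [min_eq_left h3] at h1
          linarith
        · rw [min_eq_right h3] at h1
          exact h1.symm
    have hinj : Set.InjOn e (Finset.range (Nat.fib n) : Set ℕ) := by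
      intro a ha b hb hab
      rw [Finset.mem_coe, Finset.mem_range] at ha hb
      have h1 : θ a = θ b := by rw [← he a ha, ← he b hb, hab]
      by_contra hne
      rcases lt_or_gt_of_ne hne with h | h
      · have h2 : (a : ℝ) + 1 ≤ b := by exact_mod_cast h
        have := hθ3 a
        have := hθ2 b
        nlinarith
      · have h2 : (b : ℝ) + 1 ≤ a := by exact_mod_cast h
        have := hθ3 b
        have := hθ2 a
        nlinarith
    intro E' hE'
    by_contra hcon
    push Not at hcon
    have hnot : E' ∉ (Finset.range (Nat.fib n)).image e := by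
      intro h
      obtain ⟨k, hk, h1⟩ := Finset.mem_image.1 h
      exact hcon k (Finset.mem_range.1 hk) h1.symm
    have hcard := t10_card l c hn (insert E' ((Finset.range (Nat.fib n)).image e)) (by
      intro x hx
      rcases Finset.mem_insert.1 hx with rfl | h
      · exact hXc _ hE'
      · obtain ⟨k, hk, rfl⟩ := Finset.mem_image.1 h
        refine hXc _ ?_
        rw [he k (Finset.mem_range.1 hk), hθ1])
    rw [Finset.card_insert_of_notMem hnot, Finset.card_image_of_injOn hinj,
      Finset.card_range] at hcard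
    omega
  constructor
  · intro E hE
    obtain ⟨e, θ, h1, h2⟩ := key E hE
    obtain ⟨k, hk, h3⟩ := h2 E rfl
    obtain ⟨h4, h5, h7⟩ := h1 k hk
    rw [h3, h4]
    have hk' : (k : ℝ) + 1 ≤ Nat.fib n := by exact_mod_cast hk
    have h0 : 0 ≤ Real.pi * (k : ℝ) := by positivity
    constructor
    · linarith
    · nlinarith
  · intro E E' hE hEE
    obtain ⟨e, θ, h1, h2⟩ := key E hE
    obtain ⟨k, hk, h3⟩ := h2 E rfl
    obtain ⟨k', hk', h3'⟩ := h2 E' (by rw [hEE])
    obtain ⟨h4, h5, h7⟩ := h1 k hk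
    obtain ⟨h4', h5', h7'⟩ := h1 k' hk'
    have h8 : θ k = θ k' := by rw [← h4, ← h4', ← h3, ← h3', hEE]
    have h9 : k = k' := by
      by_contra hne
      rcases lt_or_gt_of_ne hne with h | h
      · have h10 : (k : ℝ) + 1 ≤ k' := by exact_mod_cast h
        nlinarith
      · have h10 : (k' : ℝ) + 1 ≤ k := by exact_mod_cast h
        nlinarith
    rw [h3, h3', h9]

theorem st_T10 (hT6 : ST_T6) (hT9 : ST_T9) : ST_T10 := by
  intro l hl hl' n
  rcases Nat.eq_zero_or_pos n with rfl | hn
  · refine ⟨fun x y _ => le_refl _, fun E => ?_⟩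
    simp [Th]
  obtain ⟨hA, hB⟩ := t10_main hT6 hT9 hl hl' hn
  have hcont := (hT6 l hl hl' n).1
  have h9 := hT9 l hl hl' n
  have hpi := Real.pi_pos
  have hR0 : Th l n (2 + |l|) = 0 := (h9 (2 + |l|)).1 le_rfl
  have hR1 : Th l n (-(2 + |l|)) = Real.pi * (Nat.fib n : ℝ) := (h9 (-(2 + |l|))).2.1 le_rfl
  have hlow : ∀ E, 0 ≤ Th l n E := by
    intro E
    by_contra hcon
    push Not at hcon
    set v := max (Th l n E) (-Real.pi) / 2 with hv
    have hm : max (Th l n E) (-Real.pi) < 0 := max_lt hcon (by linarith)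
    have hv0 : v < 0 := by linarith
    have hv1 : Th l n E ≤ v := by
      have := le_max_left (Th l n E) (-Real.pi)
      linarith
    have hv2 : -Real.pi < v := by
      have := le_max_right (Th l n E) (-Real.pi)
      linarith
    obtain ⟨x, hx⟩ := mem_range_of_exists_le_of_exists_ge hcont ⟨E, hv1⟩
      ⟨2 + |l|, by rw [hR0]; exact hv0.le⟩
    have h1 := (hA x (by rw [hx]; exact (Real.sin_neg_of_neg_of_neg_pi_lt hv0 hv2).ne)).1
    rw [hx] at h1
    linarith
  have hup : ∀ E, Th l n E ≤ Real.pi * (Nat.fib n : ℝ) := by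
    intro E
    by_contra hcon
    push Not at hcon
    set F : ℝ := (Nat.fib n : ℝ) with hF
    set v := Real.pi * F + min (Th l n E - Real.pi * F) Real.pi / 2 with hv
    have hm : 0 < min (Th l n E - Real.pi * F) Real.pi := lt_min (by linarith) hpi
    have hv0 : Real.pi * F < v := by linarith
    have hv1 : v ≤ Th l n E := by
      have := min_le_left (Th l n E - Real.pi * F) Real.pi
      linarith
    have hv2 : v < Real.pi * (F + 1) := by
      have := min_le_right (Th l n E - Real.pi * F) Real.pi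
      nlinarith
    obtain ⟨x, hx⟩ := mem_range_of_exists_le_of_exists_ge hcont
      ⟨-(2 + |l|), by rw [hR1]; exact hv0.le⟩ ⟨E, hv1⟩
    have hs : Real.sin (Th l n x) ≠ 0 := by
      rw [hx]
      exact t10_sin (k := (Nat.fib n : ℤ)) (by push_cast; exact hv0) (by push_cast; exact hv2)
    have h1 := (hA x hs).2
    rw [hx] at h1
    linarith
  refine ⟨?_, fun E => ⟨hlow E, hup E⟩⟩
  intro E₁ E₂ hE
  by_contra hcon
  push Not at hcon
  set a := Th l n E₁ with ha
  set b := Th l n E₂ with hb
  set k := ⌊a / Real.pi⌋ with hk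
  have hk1 : Real.pi * k ≤ a := by
    have := Int.floor_le (a / Real.pi)
    rw [le_div_iff₀ hpi] at this
    linarith
  have hk2 : a < Real.pi * (k + 1) := by
    have := Int.lt_floor_add_one (a / Real.pi)
    rw [div_lt_iff₀ hpi] at this
    linarith
  set v := (a + min b (Real.pi * (k + 1))) / 2 with hv
  have hm : a < min b (Real.pi * (k + 1)) := lt_min hcon hk2
  have hv1 : a < v := by linarith
  have hv2 : v < b := by
    have := min_le_left b (Real.pi * (k + 1))
    linarith
  have hv3 : v < Real.pi * (k + 1) := by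
    have := min_le_right b (Real.pi * (k + 1))
    linarith
  have hsin : Real.sin v ≠ 0 := t10_sin (k := k) (by linarith) hv3
  have hmem1 : v ∈ Icc (Th l n E₁) (Th l n (min (-(2 + |l|)) E₁)) := by
    refine ⟨hv1.le, ?_⟩
    rw [(h9 (min (-(2 + |l|)) E₁)).2.1 (min_le_left _ _)]
    have := hup E₂
    linarith
  obtain ⟨x, hx, hx'⟩ := intermediate_value_Icc' (min_le_right (-(2 + |l|)) E₁)
    hcont.continuousOn hmem1
  obtain ⟨y, hy, hy'⟩ := intermediate_value_Icc hE hcont.continuousOn
    (show v ∈ Icc (Th l n E₁) (Th l n E₂) from ⟨hv1.le, hv2.le⟩)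
  have hxy : x = y := hB x y (by rw [hx']; exact hsin) (by rw [hx', hy'])
  have h1 : x = E₁ := le_antisymm hx.2 (by rw [hxy]; exact hy.1)
  rw [h1] at hx'
  linarith

end Pool.Agent.Helper36.CV
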